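import Pool.Agent.W550.LG2.Stm

set_option autoImplicit false
open Topology Filter Set
open scoped ContDiff InnerProductSpace

namespace Pool.Agent.W227.LG2

open Pool.Agent.W617.LG Pool.Agent.W550.LG2

variable {q : ℕ} {C : TF q}

theorem sumOn {e : Fin (q + 1) → E q}
    (on : ∀ i j, ⟪e i, e j⟫_ℝ = if i = j then 1 else 0) {Z : Finset (Fin (q + 1))}
    {i : Fin (q + 1)} (hi : i ∈ Z) (f : Fin (q + 1) → ℝ) (g : Fin (q + 1) → ℝ) :
    ∑ j ∈ Z, (f j * ⟪e j, e i⟫_ℝ * g j) • e j = (f i * g i) • e i := by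
  rw [Finset.sum_eq_single i]
  · rw [on]; simp
  · intro j _ hj
    rw [on]; simp [hj]
  · intro h; exact absurd hi h

theorem sumOn' {e : Fin (q + 1) → E q}
    (on : ∀ i j, ⟪e i, e j⟫_ℝ = if i = j then 1 else 0) {Z : Finset (Fin (q + 1))}
    {i : Fin (q + 1)} (hi : i ∈ Z) (f : Fin (q + 1) → ℝ) :
    ∑ j ∈ Z, (f j * ⟪e j, e i⟫_ℝ) • e j = f i • e i := by
  rw [Finset.sum_eq_single i]
  · rw [on]; simp
  · intro j _ hj
    rw [on]; simp [hj]
  · intro h; exact absurd hi h

theorem Diag_e {e : Fin (q + 1) → E q} {Z : Finset (Fin (q + 1))} {y : E q}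
    (hD : Diag C e Z y) (on : ∀ i j, ⟪e i, e j⟫_ℝ = if i = j then 1 else 0)
    {i : Fin (q + 1)} (hi : i ∈ Z) (b : E q) :
    C y (e i) b = (lam C y (e i) * ⟪e i, b⟫_ℝ) • e i := by
  rw [hD.form]
  exact sumOn on hi (fun j => lam C y (e j)) (fun j => ⟪e j, b⟫_ℝ)

theorem Diag_w {e : Fin (q + 1) → E q} {Z : Finset (Fin (q + 1))} {y w : E q}
    (hD : Diag C e Z y) (hw : ∀ i ∈ Z, ⟪e i, w⟫_ℝ = 0) : C y w = 0 := by
  ext1 b
  rw [hD.form]
  show _ = (0 : E q)
  apply Finset.sum_eq_zero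
  intro i hi
  rw [hw i hi]; simp

theorem Diag_li {e : Fin (q + 1) → E q} {Z : Finset (Fin (q + 1))} {y : E q} {r : ℕ}
    (hZ : Z.card = r)
    (hD : Diag C e Z y) (on : ∀ i j, ⟪e i, e j⟫_ℝ = if i = j then 1 else 0) :
    LinearIndependent ℝ (fun k : Fin r => C y (e (Z.orderEmbOfFin hZ k))) := by
  rw [Fintype.linearIndependent_iff]
  intro g hg k
  have hk : Z.orderEmbOfFin hZ k ∈ Z := Finset.orderEmbOfFin_mem Z hZ k
  have h1 : (∑ l, g l • C y (e (Z.orderEmbOfFin hZ l))) (e (Z.orderEmbOfFin hZ k)) = 0 := by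
    rw [hg]; rfl
  rw [_root_.sum_apply] at h1
  have h2 : ⟪e (Z.orderEmbOfFin hZ k), ∑ l, (g l • C y (e (Z.orderEmbOfFin hZ l)))
      (e (Z.orderEmbOfFin hZ k))⟫_ℝ = 0 := by
    rw [h1]; simp
  rw [inner_sum, Finset.sum_eq_single k] at h2
  · rw [smul_apply, Diag_e hD on hk, on] at h2
    simp only [if_true, mul_one, inner_smul_right, on] at h2
    rcases mul_eq_zero.1 h2 with h3 | h3
    · exact h3
    · exact absurd h3 (hD.nz _ hk)
  · intro l _ hl
    have hl' : Z.orderEmbOfFin hZ l ∈ Z := Finset.orderEmbOfFin_mem Z hZ l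
    have hne : Z.orderEmbOfFin hZ l ≠ Z.orderEmbOfFin hZ k := by
      intro h
      exact hl ((Z.orderEmbOfFin hZ).injective h)
    rw [smul_apply, Diag_e hD on hl', on, if_neg hne]
    simp
  · intro h
    exact absurd (Finset.mem_univ k) h

/-- operators which are diagonal on `Z` -/
theorem span_form {e : Fin (q + 1) → E q} {Z : Finset (Fin (q + 1))} {y : E q} {r : ℕ}
    (hZ : Z.card = r)
    (hD : Diag C e Z y) (on : ∀ i j, ⟪e i, e j⟫_ℝ = if i = j then 1 else 0)
    (A : E q →L[ℝ] E q)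
    (hA : A ∈ Submodule.span ℝ (range fun k : Fin r => C y (e (Z.orderEmbOfFin hZ k)))) :
    ∀ b, A b = ∑ i ∈ Z, (⟪A (e i), e i⟫_ℝ * ⟪e i, b⟫_ℝ) • e i := by
  induction hA using Submodule.span_induction with
  | mem A hA =>
    obtain ⟨k, rfl⟩ := hA
    intro b
    have hk : Z.orderEmbOfFin hZ k ∈ Z := Finset.orderEmbOfFin_mem Z hZ k
    rw [Finset.sum_eq_single (Z.orderEmbOfFin hZ k)]
    · simp only
      rw [Diag_e hD on hk, Diag_e hD on hk, real_inner_smul_left, on]
      simp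
    · intro j _ hj
      simp only
      rw [Diag_e hD on hk, on, if_neg (Ne.symm hj)]
      simp
    · intro h; exact absurd hk h
  | zero => intro b; simp
  | add A B _ _ hA hB =>
    intro b
    rw [add_apply, hA b, hB b, ← Finset.sum_add_distrib]
    apply Finset.sum_congr rfl
    intro i _
    rw [add_apply, inner_add_left, ← add_smul]
    congr 1
    ring
  | smul c A _ hA =>
    intro b
    rw [smul_apply, hA b, Finset.smul_sum]
    apply Finset.sum_congr rfl
    intro i _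
    rw [smul_apply, real_inner_smul_left, smul_smul]
    congr 1
    ring

theorem step (hL : S_LINE) : S_STEP := by
  intro q C τ h r hM e Z hZ on y w hD hw
  have hCw : C y w = 0 := Diag_w hD hw
  have h1 := hL q C τ h r hM y (fun k : Fin r => e (Z.orderEmbOfFin hZ k)) hD.ne
    (Diag_li hZ hD on) w hCw
  have hc : ContinuousAt (fun s : ℝ => y + s • w) 0 := by fun_prop
  have hc0 : (fun s : ℝ => y + s • w) 0 = y := by simp
  have h2 : ∀ᶠ s in 𝓝 (0 : ℝ), y + s • w ≠ 0 := by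
    apply hc.eventually_ne
    rw [zero_smul, add_zero]; exact hD.ne
  have hCc : ContinuousAt (fun s : ℝ => C (y + s • w)) 0 := by
    have h3 : ContinuousAt C ((fun s : ℝ => y + s • w) 0) := by
      rw [hc0]; exact (h.smooth y hD.ne).continuousAt
    exact ContinuousAt.comp h3 hc
  have h3 : ∀ᶠ s in 𝓝 (0 : ℝ), ∀ i ∈ Z, lam C (y + s • w) (e i) ≠ 0 := by
    rw [Filter.eventually_all_finset]
    intro i hi
    have h4 : ContinuousAt (fun s : ℝ => lam C (y + s • w) (e i)) 0 := by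
      unfold lam
      exact ((hCc.clm_apply continuousAt_const).clm_apply continuousAt_const).inner
        continuousAt_const
    apply h4.eventually_ne
    simp only [zero_smul, add_zero]
    exact hD.nz i hi
  filter_upwards [h1, h2, h3] with s hs1 hs2 hs3
  refine ⟨hs2, ?_, hs3⟩
  intro a b
  have key := fun a => span_form hZ hD on _ (hs1.2 a)
  rw [key a b]
  apply Finset.sum_congr rfl
  intro i hi
  have h5 : C (y + s • w) (e i) (e i) = (lam C (y + s • w) (e i)) • e i := by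
    rw [key (e i) (e i)]
    rw [sumOn' on hi (fun j => ⟪C (y + s • w) (e i) (e j), e j⟫_ℝ)]
    rfl
  have h6 : ⟪C (y + s • w) a (e i), e i⟫_ℝ = lam C (y + s • w) (e i) * ⟪e i, a⟫_ℝ := by
    rw [h.comm12 _ hs2, h.symm _ hs2, h5, real_inner_smul_left]
  rw [h6]

end Pool.Agent.W227.LG2
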